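import Mathlib
import Pool.Agent.V1112.HopfGen

/-!
# A finite-dimensional Hopf algebra with infinitely many two-sided group-like projections

The Hopf algebra is the restricted enveloping algebra of the two-dimensional non-abelian restricted
Lie algebra `⟨h, e⟩`, `[h, e] = e`, `h^[2] = h`, `e^[2] = 0` in characteristic two. As an algebra it
is the (degenerate) quaternion algebra `ℍ[k, 0, 1, 0]` with `i = h`, `j = e`. For every scalar `c` the
element `1 + h + c e` is the integral of the Hopf subalgebra generated by the toral element `h + c e`.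
-/

set_option autoImplicit false

namespace Pool.Agent.Results.MP_2a0e18_al.InfiniteProj

open TensorProduct Coalgebra Quaternion

/-- `P` is a two-sided group-like projection of the Hopf algebra `A`: a nonzero idempotent with
`Δ(P)(1 ⊗ P) = P ⊗ P = (1 ⊗ P)Δ(P)` and `Δ(P)(P ⊗ 1) = P ⊗ P = (P ⊗ 1)Δ(P)`. -/
def IsTwoSidedGroupLikeProjection (k : Type*) {A : Type*} [Field k] [Ring A] [HopfAlgebra k A]
    (P : A) : Prop :=
  P ≠ 0 ∧ P * P = P ∧
  comul (R := k) P * (1 ⊗ₜ[k] P) = P ⊗ₜ[k] P ∧ (1 ⊗ₜ[k] P) * comul (R := k) P = P ⊗ₜ[k] P ∧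
  comul (R := k) P * (P ⊗ₜ[k] 1) = P ⊗ₜ[k] P ∧ (P ⊗ₜ[k] 1) * comul (R := k) P = P ⊗ₜ[k] P

universe u

section construction

set_option linter.unusedSectionVars false

variable (k : Type u) [Field k] [CharP k 2]

omit [CharP k 2] in
theorem add_self' [CharP k 2] {M : Type*} [AddCommGroup M] [Module k M] (x : M) : x + x = 0 := by
  rw [← two_smul k x, CharTwo.two_eq_zero, zero_smul]

theorem neg_self' {M : Type*} [AddCommGroup M] [Module k M] (x : M) : -x = x := by
  rw [neg_eq_iff_add_eq_zero]; exact add_self' k x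

/-- The algebra. -/
abbrev A := ℍ[k, 0, 1, 0]

/-- The element `h`. -/
def h : A k := ⟨0, 1, 0, 0⟩

/-- The element `e`. -/
def e : A k := ⟨0, 0, 1, 0⟩

theorem hh : h k * h k = h k := by ext <;> simp [h]

theorem ee : e k * e k = 0 := by ext <;> simp [e]

theorem eh : e k * h k = e k + h k * e k := by
  ext <;> simp [h, e]
  exact CharTwo.neg_eq (1 : k)

/-- The comultiplication on generators. -/
def comulBasis : QuaternionAlgebra.Basis (A k ⊗[k] A k) (0 : k) 1 0 where
  i := h k ⊗ₜ 1 + 1 ⊗ₜ h k
  j := e k ⊗ₜ 1 + 1 ⊗ₜ e k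
  k := (h k ⊗ₜ 1 + 1 ⊗ₜ h k) * (e k ⊗ₜ 1 + 1 ⊗ₜ e k)
  i_mul_i := by
    simp only [mul_add, add_mul, Algebra.TensorProduct.tmul_mul_tmul, hh, mul_one, one_mul]
    linear_combination (norm := module) add_self' k (h k ⊗ₜ[k] h k)
  j_mul_j := by
    simp only [mul_add, add_mul, Algebra.TensorProduct.tmul_mul_tmul, ee, mul_one, one_mul]
    simp only [zero_tmul, tmul_zero, zero_smul]
    linear_combination (norm := module) add_self' k (e k ⊗ₜ[k] e k)
  i_mul_j := rfl
  j_mul_i := by
    simp only [mul_add, add_mul, Algebra.TensorProduct.tmul_mul_tmul, eh, mul_one, one_mul,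
      add_tmul, tmul_add]
    linear_combination (norm := module) add_self' k ((h k * e k) ⊗ₜ[k] (1 : A k)) +
      add_self' k ((1 : A k) ⊗ₜ[k] (h k * e k)) + add_self' k (e k ⊗ₜ[k] h k) +
      add_self' k (h k ⊗ₜ[k] e k)

/-- The counit on generators. -/
def counitBasis : QuaternionAlgebra.Basis k (0 : k) 1 0 where
  i := 0
  j := 0
  k := 0
  i_mul_i := by simp
  j_mul_j := by simp
  i_mul_j := by simp
  j_mul_i := by simp

/-- The comultiplication. -/
noncomputable def Δ : A k →ₐ[k] A k ⊗[k] A k := QuaternionAlgebra.lift (comulBasis k)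

/-- The counit. -/
noncomputable def ε : A k →ₐ[k] k := QuaternionAlgebra.lift (counitBasis k)

theorem Δ_h : Δ k (h k) = h k ⊗ₜ 1 + 1 ⊗ₜ h k := by
  simp [Δ, h, comulBasis, QuaternionAlgebra.Basis.lift]

theorem Δ_e : Δ k (e k) = e k ⊗ₜ 1 + 1 ⊗ₜ e k := by
  simp [Δ, e, comulBasis, QuaternionAlgebra.Basis.lift]

theorem ε_h : ε k (h k) = 0 := by
  simp [ε, h, counitBasis, QuaternionAlgebra.Basis.lift]

theorem ε_e : ε k (e k) = 0 := by
  simp [ε, e, counitBasis, QuaternionAlgebra.Basis.lift]

theorem self_i :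
    (QuaternionAlgebra.Basis.self k : QuaternionAlgebra.Basis (A k) (0 : k) 1 0).i = h k := rfl

theorem self_j :
    (QuaternionAlgebra.Basis.self k : QuaternionAlgebra.Basis (A k) (0 : k) 1 0).j = e k := rfl

/-- The bialgebra structure. -/
noncomputable abbrev bialg : Bialgebra k (A k) :=
  Bialgebra.ofAlgHom (Δ k) (ε k)
    (by
      apply QuaternionAlgebra.hom_ext
      · rw [self_i]
        simp [Δ_h, tmul_add, add_tmul, Algebra.TensorProduct.one_def, add_assoc]
      · rw [self_j]
        simp [Δ_e, tmul_add, add_tmul, Algebra.TensorProduct.one_def, add_assoc])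
    (by
      apply QuaternionAlgebra.hom_ext
      · rw [self_i]; simp [Δ_h, ε_h]
      · rw [self_j]; simp [Δ_e, ε_e])
    (by
      apply QuaternionAlgebra.hom_ext
      · rw [self_i]; simp [Δ_h, ε_h]
      · rw [self_j]; simp [Δ_e, ε_e])

/-- The antipode. -/
def S : A k →ₗ[k] A k where
  toFun x := ⟨x.re, x.imI, x.imJ + x.imK, x.imK⟩
  map_add' x y := by ext <;> simp; ring
  map_smul' a x := by ext <;> simp; ring

theorem S_mul (x y : A k) : S k (x * y) = S k y * S k x := by
  have h2 : (2 : k) = 0 := CharTwo.two_eq_zero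
  ext <;> simp [S]
  · ring
  · ring
  · ring
  · linear_combination (x.imI * y.imJ - x.imJ * y.imI + x.imI * y.imK - x.imK * y.imI) * h2

theorem S_one : S k 1 = 1 := by ext <;> simp [S]

theorem S_h : S k (h k) = h k := by ext <;> simp [S, h]

theorem S_e : S k (e k) = e k := by ext <;> simp [S, e]

theorem adjoin_eq : Algebra.adjoin k ({h k, e k} : Set (A k)) = ⊤ := by
  rw [eq_top_iff]
  intro x _
  have hx : x = algebraMap k (A k) x.re + x.imI • h k + x.imJ • e k + x.imK • (h k * e k) := by
    ext <;> simp [h, e]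
  rw [hx]
  have h1 : h k ∈ Algebra.adjoin k ({h k, e k} : Set (A k)) := Algebra.subset_adjoin (by simp)
  have h2 : e k ∈ Algebra.adjoin k ({h k, e k} : Set (A k)) := Algebra.subset_adjoin (by simp)
  exact add_mem (add_mem (add_mem (Subalgebra.algebraMap_mem _ _) (Subalgebra.smul_mem _ h1 _))
    (Subalgebra.smul_mem _ h2 _)) (Subalgebra.smul_mem _ (mul_mem h1 h2) _)

/-- The Hopf algebra structure. -/
noncomputable abbrev hopf : HopfAlgebra k (A k) :=
  letI := bialg k
  Pool.Agent.V1112.HopfGen.ofGenerators {h k, e k} (adjoin_eq k) (S k) (S_mul k) (S_one k)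
    (by
      rintro a (rfl | rfl)
      · change LinearMap.mul' k (A k) ((S k).rTensor (A k) (Δ k (h k))) =
          algebraMap k (A k) (ε k (h k))
        simp [Δ_h, ε_h, S_h, S_one, add_self' k]
      · change LinearMap.mul' k (A k) ((S k).rTensor (A k) (Δ k (e k))) =
          algebraMap k (A k) (ε k (e k))
        simp [Δ_e, ε_e, S_e, S_one, add_self' k])
    (by
      rintro a (rfl | rfl)
      · change LinearMap.mul' k (A k) ((S k).lTensor (A k) (Δ k (h k))) =
          algebraMap k (A k) (ε k (h k))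
        simp [Δ_h, ε_h, S_h, S_one, add_self' k]
      · change LinearMap.mul' k (A k) ((S k).lTensor (A k) (Δ k (e k))) =
          algebraMap k (A k) (ε k (e k))
        simp [Δ_e, ε_e, S_e, S_one, add_self' k])

/-- The projections. -/
def P (c : k) : A k := 1 + (h k + c • e k)

theorem idem (c : k) : (h k + c • e k) * (h k + c • e k) = h k + c • e k := by
  simp only [mul_add, add_mul, hh, smul_mul_assoc, mul_smul_comm, ee, eh, smul_zero, add_zero]
  linear_combination (norm := module) add_self' k (c • (h k * e k))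

theorem Δ_P (c : k) : Δ k (P k c) = 1 ⊗ₜ 1 + (h k + c • e k) ⊗ₜ 1 + 1 ⊗ₜ (h k + c • e k) := by
  simp only [P, map_add, map_one, map_smul, Δ_h, Δ_e, Algebra.TensorProduct.one_def, smul_add,
    add_tmul, tmul_add, smul_tmul', tmul_smul]
  module

theorem P_mul (c : k) : (h k + c • e k) * P k c = 0 := by
  rw [P, mul_add, mul_one, idem, add_self' k]

theorem mul_P (c : k) : P k c * (h k + c • e k) = 0 := by
  rw [P, add_mul, one_mul, idem, add_self' k]

theorem P_idem (c : k) : P k c * P k c = P k c := by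
  conv_lhs => rw [P, add_mul, one_mul]
  rw [show (1 + (h k + c • e k)) = P k c from rfl, P_mul, add_zero]

theorem P_ne_zero (c : k) : P k c ≠ 0 := by
  intro h0
  have := congrArg QuaternionAlgebra.re h0
  simp [P, h, e] at this

theorem isGL (c : k) :
    let _ : HopfAlgebra k (A k) := hopf k
    IsTwoSidedGroupLikeProjection k (P k c) := by
  intro _
  refine ⟨P_ne_zero k c, P_idem k c, ?_, ?_, ?_, ?_⟩
  · change Δ k (P k c) * _ = _
    rw [Δ_P, add_mul, Algebra.TensorProduct.tmul_mul_tmul, P_mul, tmul_zero, add_zero, ← add_tmul,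
      Algebra.TensorProduct.tmul_mul_tmul, one_mul, mul_one]
    rfl
  · change _ * Δ k (P k c) = _
    rw [Δ_P, mul_add, Algebra.TensorProduct.tmul_mul_tmul, mul_P, tmul_zero, add_zero, ← add_tmul,
      Algebra.TensorProduct.tmul_mul_tmul, one_mul, mul_one]
    rfl
  · change Δ k (P k c) * _ = _
    rw [Δ_P, add_right_comm, add_mul, Algebra.TensorProduct.tmul_mul_tmul, P_mul, zero_tmul,
      add_zero, ← tmul_add, Algebra.TensorProduct.tmul_mul_tmul, one_mul, mul_one]
    rfl
  · change _ * Δ k (P k c) = _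
    rw [Δ_P, add_right_comm, mul_add, Algebra.TensorProduct.tmul_mul_tmul, mul_P, zero_tmul,
      add_zero, ← tmul_add, Algebra.TensorProduct.tmul_mul_tmul, one_mul, mul_one]
    rfl

theorem P_injective : Function.Injective (P k) := by
  intro c d hcd
  have := congrArg QuaternionAlgebra.imJ hcd
  simpa [P, h, e] using this

end construction

/-- Over every infinite field of characteristic two there is a four-dimensional Hopf algebra with
infinitely many two-sided group-like projections; and such fields exist. -/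
theorem result : (∃ (k : Type) (_ : Field k), CharP k 2 ∧ Infinite k) ∧
    ∀ (k : Type u) [Field k] [CharP k 2] [Infinite k],
      ∃ (A : Type u) (_ : Ring A) (_ : HopfAlgebra k A),
        Module.finrank k A = 4 ∧ FiniteDimensional k A ∧
          Set.Infinite {P : A | IsTwoSidedGroupLikeProjection k P} := by
  refine ⟨⟨RatFunc (ZMod 2), inferInstance, ?_, ?_⟩, ?_⟩
  · exact charP_of_injective_algebraMap (algebraMap (ZMod 2) (RatFunc (ZMod 2))).injective 2
  · exact Infinite.of_injective _ (RatFunc.algebraMap_injective (ZMod 2))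
  · intro k _ _ _
    refine ⟨A k, QuaternionAlgebra.instRing, hopf k, ?_, ?_, ?_⟩
    · exact QuaternionAlgebra.finrank_eq_four _ _ _
    · change FiniteDimensional k ℍ[k, 0, 1, 0]
      infer_instance
    · exact (Set.infinite_range_of_injective (P_injective k)).mono
        (by rintro _ ⟨c, rfl⟩; exact isGL k c)

end Pool.Agent.Results.MP_2a0e18_al.InfiniteProj
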